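import Pool.Agent.Q62.UM.Stm3

/-!
Project UM, job A3: windows.
-/

set_option autoImplicit false

open Set MeasureTheory Topology Filter
open scoped ENNReal

namespace Pool.Agent.Q154.UM

open Pool.Agent.Q62.UM

noncomputable section

lemma cover_of_diam {S : Set ℝ} {L : ℝ} (hL : 0 ≤ L) (h : ∀ x ∈ S, ∀ y ∈ S, y - x ≤ L) :
    ∃ E : Finset ℝ, (E.card : ℝ) ≤ L + 1 ∧ ∀ u ∈ S, ∃ e ∈ E, u ∈ Icc e (e + 1) := by
  classical
  rcases S.eq_empty_or_nonempty with hE | hne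
  · refine ⟨∅, by simpa using by linarith, ?_⟩
    intro u hu
    rw [hE] at hu
    exact absurd hu (Set.notMem_empty u)
  · have hbdd : BddBelow S := by
      obtain ⟨x0, hx0⟩ := hne
      refine ⟨x0 - L, ?_⟩
      intro y hy
      have := h y hy x0 hx0
      linarith
    refine ⟨(Finset.range (⌊L⌋₊ + 1)).image (fun i : ℕ => sInf S + (i : ℝ)), ?_, ?_⟩
    · have h1 : ((Finset.range (⌊L⌋₊ + 1)).image (fun i : ℕ => sInf S + (i : ℝ))).card ≤
          ⌊L⌋₊ + 1 := le_trans Finset.card_image_le (by rw [Finset.card_range])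
      have h2 : (⌊L⌋₊ : ℝ) ≤ L := Nat.floor_le hL
      calc _ ≤ ((⌊L⌋₊ + 1 : ℕ) : ℝ) := by exact_mod_cast h1
        _ ≤ L + 1 := by push_cast; linarith
    · intro u hu
      have h1 : sInf S ≤ u := csInf_le hbdd hu
      have h2 : u - L ≤ sInf S := by
        apply le_csInf hne
        intro x hx
        have := h x hx u hu
        linarith
      have h3 : (⌊u - sInf S⌋₊ : ℝ) ≤ u - sInf S := Nat.floor_le (by linarith)
      have h4 : u - sInf S < ⌊u - sInf S⌋₊ + 1 := Nat.lt_floor_add_one _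
      refine ⟨sInf S + (⌊u - sInf S⌋₊ : ℝ), ?_, ⟨by linarith, by linarith⟩⟩
      rw [Finset.mem_image]
      refine ⟨⌊u - sInf S⌋₊, ?_, rfl⟩
      rw [Finset.mem_range]
      have h5 : ⌊u - sInf S⌋₊ ≤ ⌊L⌋₊ := Nat.floor_le_floor (by linarith)
      omega

lemma len_le {J : Set ℝ} {κ : ℝ → ℝ} {κ₀ I x y : ℝ} (h0 : 0 < κ₀) (h1 : κ₀ ≤ 1) (hI : 0 ≤ I)
    (hint : ∫⁻ u in J, ENNReal.ofReal (min (κ u) 1) ≤ ENNReal.ofReal I)
    (hsub : Icc x y ⊆ J) (hlow : ∀ u ∈ Icc x y, κ₀ ≤ κ u) : y - x ≤ I / κ₀ := by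
  have h2 : ENNReal.ofReal κ₀ * ENNReal.ofReal (y - x) ≤ ENNReal.ofReal I := by
    calc ENNReal.ofReal κ₀ * ENNReal.ofReal (y - x) = ∫⁻ _ in Icc x y, ENNReal.ofReal κ₀ := by
          rw [setLIntegral_const, Real.volume_Icc]
      _ ≤ ∫⁻ u in Icc x y, ENNReal.ofReal (min (κ u) 1) := by
        apply setLIntegral_mono' measurableSet_Icc
        intro u hu
        exact ENNReal.ofReal_le_ofReal (le_min (hlow u hu) h1)
      _ ≤ ∫⁻ u in J, ENNReal.ofReal (min (κ u) 1) := lintegral_mono_set hsub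
      _ ≤ _ := hint
  rw [← ENNReal.ofReal_mul h0.le, ENNReal.ofReal_le_ofReal_iff hI] at h2
  rw [le_div_iff₀ h0]
  linarith

/-- **A3** -/
theorem t_A3 : S_A3 := by
  classical
  intro J κd κu κ₀ I hJ h0 h1 hI _ _ _ _ had hmu hid hiu
  have hL : 0 ≤ I / κ₀ := by positivity
  obtain ⟨E1, hE1, hE1'⟩ := cover_of_diam (S := {u | u ∈ J ∧ κ₀ < κd u}) hL (by
    intro x hx y hy
    apply len_le h0 h1 hI hid (hJ.2.out hx.1 hy.1)
    intro u hu
    exact le_trans hy.2.le (had (hJ.2.out hx.1 hy.1 hu) hy.1 hu.2))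
  obtain ⟨E2, hE2, hE2'⟩ := cover_of_diam (S := {u | u ∈ J ∧ κ₀ < κu u}) hL (by
    intro x hx y hy
    apply len_le h0 h1 hI hiu (hJ.2.out hx.1 hy.1)
    intro u hu
    exact le_trans hx.2.le (hmu hx.1 (hJ.2.out hx.1 hy.1 hu) hu.1))
  refine ⟨E1 ∪ E2, ?_, ?_⟩
  · have h2 : ((E1 ∪ E2).card : ℝ) ≤ E1.card + E2.card := by
      exact_mod_cast Finset.card_union_le E1 E2
    linarith
  · intro u hu hE
    constructor
    · by_contra hc
      push Not at hc
      obtain ⟨e, he, hue⟩ := hE1' u ⟨hu, hc⟩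
      exact hE e (Finset.mem_union_left _ he) hue
    · by_contra hc
      push Not at hc
      obtain ⟨e, he, hue⟩ := hE2' u ⟨hu, hc⟩
      exact hE e (Finset.mem_union_right _ he) hue

end

end Pool.Agent.Q154.UM
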