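import Pool.Agent.Q97.UM.Stm21
import Pool.Agent.Q151.UM.CLA

set_option autoImplicit false

/-! Project UM15 (helper97), job CLS (helper154): as CLA of helper151, at shifted points and without weight. -/

open Filter Topology MeasureTheory Complex
open Pool.Agent.Q97.UM Pool.Agent.Q96.UM Pool.Agent.Q151.UM

namespace Pool.Agent.Q154.UM

noncomputable section

theorem t_CLS : J_CLS := by
  classical
  rintro hTHP hSTM - hDPM hSAMP ⟨θ, c, C, hθ, hθ4, hc, hC, hTail⟩
  obtain ⟨θ₁, δ₀, hθ₁, hδ₀, hT4⟩ := hTHP 4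
  obtain ⟨η, hη⟩ : ∃ η, η = c / 80 := ⟨_, rfl⟩
  have hη0 : 0 < η := by rw [hη]; positivity
  obtain ⟨C2, hC2, hS2⟩ := hSTM θ c C hθ hθ4 hc hC hTail 2 η hη0 (by push_cast; rw [hη]; linarith)
  obtain ⟨θs, hθs, hθs4, hSa⟩ := hSAMP 1 one_pos
  obtain ⟨B, hB0, hB⟩ := N2_e1
  have hZ0 := Z0_nonneg
  refine ⟨min δ₀ (θs / 2), lt_min hδ₀ (by linarith), fun δ hδ hδ2 => ?_⟩
  obtain ⟨C₀, hC₀, hT'⟩ := hT4 δ hδ (hδ2.trans (min_le_left _ _))
  refine ⟨4 * ((C2 + C₀) + 2 * ((2 * Z0) ^ 2 + B + Z0)), by positivity, ?_⟩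
  filter_upwards [hT', hS2, hSa, eventually_ge_atTop (Real.exp 2), eventually_ge_atTop 16]
    with T h1 h4 hsa hTe hT16
  intro h hh
  obtain ⟨hh1, hh2⟩ := abs_le.1 hh
  have hT0 : 0 < T := by linarith
  have hT1 : 1 ≤ T := by linarith
  have hL2 : 2 ≤ Real.log T := by rw [Real.le_log_iff_exp_le hT0]; exact hTe
  have hL : 0 < Real.log T := by linarith
  have hr : 1 / Real.log T ≤ 1 := by rw [div_le_one hL]; linarith
  have hr0 : 0 < 1 / Real.log T := by positivity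
  obtain ⟨X, hX⟩ : ∃ X, X = ⌊T ^ δ⌋₊ := ⟨_, rfl⟩
  rw [← hX] at h1 ⊢
  have hN1 : ((1 : ℕ) : ℝ) ≤ T ^ θ₁ := by
    rw [Nat.cast_one]; exact Real.one_le_rpow hT1 hθ₁.le
  have hN1' : ((1 : ℕ) : ℝ) ≤ T ^ (θ / 2) := by
    rw [Nat.cast_one]; exact Real.one_le_rpow hT1 (by positivity)
  have hN1s : ((1 : ℕ) : ℝ) ≤ T ^ θs := by
    rw [Nat.cast_one]; exact Real.one_le_rpow hT1 hθs.le
  have hδθ : δ ≤ θs / 2 := hδ2.trans (min_le_right _ _)
  have hXT : (X : ℝ) ≤ T ^ δ := by rw [hX]; exact Nat.floor_le (by positivity)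
  have hXa : (X : ℝ) ≤ T ^ θs :=
    hXT.trans (Real.rpow_le_rpow_of_exponent_le hT1 (by linarith))
  have hXb : ((X ^ 2 : ℕ) : ℝ) ≤ T ^ θs := by
    push_cast
    calc (X : ℝ) ^ 2 ≤ (T ^ δ) ^ 2 := pow_le_pow_left₀ (Nat.cast_nonneg _) hXT 2
      _ = T ^ (δ * 2) := by rw [← Real.rpow_natCast, ← Real.rpow_mul hT0.le]; norm_num
      _ ≤ T ^ θs := Real.rpow_le_rpow_of_exponent_le hT1 (by linarith)
  have hXl : ∀ n : ℕ, 1 ≤ n → n ≤ X → Real.log n ≤ Real.log T := by
    intro n hn hnX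
    refine Real.log_le_log (by exact_mod_cast hn) ?_
    calc (n : ℝ) ≤ X := by exact_mod_cast hnX
      _ ≤ T ^ δ := hXT
      _ ≤ T ^ (1 : ℝ) := Real.rpow_le_rpow_of_exponent_le hT1 (by linarith)
      _ = T := Real.rpow_one T
  obtain ⟨i4, j4⟩ := h1 1 hN1 (fun _ => 1)
  rw [N2_one, mul_one] at j4
  simp only [dp_one, norm_one, one_pow, mul_one] at i4 j4
  have k4 := h4 1 hN1' (fun _ => 1)
  rw [N2_one, mul_one] at k4
  simp only [dp_one, norm_one, one_pow, mul_one] at k4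
  have i4' : IntervalIntegrable (fun t => Dd X t ^ 4) volume (T / 2) (4 * T) := by
    refine i4.congr fun t _ => ?_
    show |Dd X t| ^ 4 = Dd X t ^ 4
    exact Even.pow_abs (by decide) _
  have j4' : ∫ t in (T / 2)..(4 * T), Dd X t ^ 4 ≤ C₀ * T := by
    refine le_trans (le_of_eq ?_) j4
    refine intervalIntegral.integral_congr fun t _ => ?_
    show Dd X t ^ 4 = |Dd X t| ^ 4
    exact (Even.pow_abs (by decide) _).symm
  have hMe := Dd_meas X
  have iM : IntervalIntegrable (fun t => 1 + Dd X t ^ 4) volume (T / 2) (4 * T) :=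
    IntervalIntegrable.add (by simp) i4'
  have i2 : IntervalIntegrable (fun t => Dd X t ^ 2) volume (T / 2) (4 * T) := by
    refine iM.mono_fun' (hMe.pow_const 2).aestronglyMeasurable (Eventually.of_forall fun t => ?_)
    show ‖Dd X t ^ 2‖ ≤ 1 + Dd X t ^ 4
    rw [Real.norm_eq_abs, abs_of_nonneg (sq_nonneg _)]
    nlinarith [sq_nonneg (Dd X t ^ 2 - 1)]
  have i1 : IntervalIntegrable (Dd X) volume (T / 2) (4 * T) := by
    refine iM.mono_fun' hMe.aestronglyMeasurable (Eventually.of_forall fun t => ?_)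
    show ‖Dd X t‖ ≤ 1 + Dd X t ^ 4
    rw [Real.norm_eq_abs, abs_le]
    constructor <;> nlinarith [sq_nonneg (Dd X t ^ 2 - 1), sq_nonneg (Dd X t - 1), sq_nonneg (Dd X t + 1)]
  have cS : Continuous (SS η T) := Pool.Agent.Q257.UM.SS_cont hL.le
  have S0 : ∀ t, 0 ≤ SS η T t := fun t => Pool.Agent.Q257.UM.SS_nonneg η T t
  have hAB : T / 2 ≤ 4 * T := by linarith
  -- the shifted functions on the smaller interval
  have hAB' : T / 2 + 1 ≤ 4 * T - 1 := by linarith
  have shift : ∀ (f : ℝ → ℝ), IntervalIntegrable f volume (T / 2) (4 * T) →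
      IntervalIntegrable (fun u => f (u + h)) volume (T / 2 + 1) (4 * T - 1) := by
    intro f hf
    have h3 := hf.comp_add_right h
    refine h3.mono_set ?_
    rw [Set.uIcc_of_le hAB', Set.uIcc_of_le (by linarith)]
    exact Set.Icc_subset_Icc (by linarith) (by linarith)
  have i2h := shift _ i2
  have i4h := shift _ i4'
  have j4h : ∫ u in (T / 2 + 1)..(4 * T - 1), Dd X (u + h) ^ 4 ≤ C₀ * T := by
    rw [intervalIntegral.integral_comp_add_right (fun t => Dd X t ^ 4) h]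
    refine le_trans ?_ j4'
    exact intervalIntegral.integral_mono_interval (by linarith) (by linarith) (by linarith)
      (Eventually.of_forall fun t => by
        show 0 ≤ Dd X t ^ 4
        positivity) i4'
  obtain ⟨F, hF⟩ : ∃ F, F = H370.Zf riemannZeta T (2 * T) := ⟨_, rfl⟩
  rw [← hF]
  have hFm : ∀ s ∈ F, s ∈ ZD T ∧ T < s.im ∧ s.im ≤ 2 * T := by
    intro s hs
    rw [hF, H370.mem_Zf H370.good_zeta (by linarith)] at hs
    obtain ⟨a1, a2, a3, a4, a5⟩ := hs
    exact ⟨(Pool.Agent.Q257.UM.mem_ZD hT16 s).2 ⟨a1, a2, by linarith, by linarith, a5⟩, a3, a4⟩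
  -- the windows
  have hW : ∀ s ∈ F, T / 2 + 1 ≤ s.im - 1 / Real.log T ∧ s.im + 1 / Real.log T ≤ 4 * T - 1 := by
    intro s hs
    obtain ⟨-, b1, b2⟩ := hFm s hs
    constructor <;> linarith
  have sub : ∀ (f : ℝ → ℝ), IntervalIntegrable f volume (T / 2) (4 * T) → ∀ s ∈ F,
      IntervalIntegrable f volume (s.im + h - 1 / Real.log T) (s.im + h + 1 / Real.log T) := by
    intro f hf s hs
    obtain ⟨b1, b2⟩ := hW s hs
    refine hf.mono_set ?_
    rw [Set.uIcc_of_le (by linarith), Set.uIcc_of_le hAB]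
    exact Set.Icc_subset_Icc (by linarith) (by linarith)
  -- the main part
  have main : ∑ s ∈ F, (mz s : ℝ) * (Real.log T / 2 *
      ∫ t in (s.im + h - 1 / Real.log T)..(s.im + h + 1 / Real.log T), Dd X t ^ 2) ≤
      (C2 + C₀) * (Real.log T * T) := by
    have st1 : ∑ s ∈ F, (mz s : ℝ) * (Real.log T / 2 *
        ∫ t in (s.im + h - 1 / Real.log T)..(s.im + h + 1 / Real.log T), Dd X t ^ 2) =
        ∑ s ∈ F, Real.log T / 2 * ((mz s : ℝ) *
          ∫ t in (T / 2 + 1)..(4 * T - 1), Set.indicator (Set.Icc (s.im - 1 / Real.log T)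
            (s.im + 1 / Real.log T)) (fun u => Dd X (u + h) ^ 2) t) := by
      refine Finset.sum_congr rfl fun s hs => ?_
      obtain ⟨b1, b2⟩ := hW s hs
      rw [Pool.Agent.Q61.UM.ind_in b1 (by linarith) b2]
      rw [intervalIntegral.integral_comp_add_right (fun t => Dd X t ^ 2) h]
      have e1 : s.im - 1 / Real.log T + h = s.im + h - 1 / Real.log T := by ring
      have e2 : s.im + 1 / Real.log T + h = s.im + h + 1 / Real.log T := by ring
      rw [e1, e2]
      ring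
    rw [st1]
    obtain ⟨w1, w2⟩ := win' i2h F (fun s => (mz s : ℝ)) (1 / Real.log T)
    rw [← Finset.mul_sum, ← w2]
    have st2 : ∫ t in (T / 2 + 1)..(4 * T - 1), (∑ s ∈ F.filter (fun s => |s.im - t| ≤ 1 / Real.log T),
        (mz s : ℝ)) * Dd X (t + h) ^ 2 ≤
        ∫ t in (T / 2 + 1)..(4 * T - 1), 2 * (SS η T t ^ 2 + Dd X (t + h) ^ 4) := by
      refine intervalIntegral.integral_mono_on hAB' w1
        ((((cS.pow 2).intervalIntegrable _ _).add i4h).const_mul _) fun t _ => ?_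
      have h3 : ∑ s ∈ F.filter (fun s => |s.im - t| ≤ 1 / Real.log T), (mz s : ℝ) ≤
          4 * SS η T t := by
        refine le_trans ?_ (Pool.Agent.Q257.UM.cnt_le hη0.le hL)
        refine Finset.sum_le_sum_of_subset_of_nonneg (fun s hs => ?_) fun _ _ _ => Nat.cast_nonneg _
        rw [Finset.mem_filter] at hs ⊢
        exact ⟨(hFm s hs.1).1, hs.2⟩
      have h5 := S0 t
      calc (∑ s ∈ F.filter (fun s => |s.im - t| ≤ 1 / Real.log T), (mz s : ℝ)) *
            Dd X (t + h) ^ 2 ≤ 4 * SS η T t * Dd X (t + h) ^ 2 := by gcongr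
        _ ≤ 2 * (SS η T t ^ 2 + Dd X (t + h) ^ 4) := by
          nlinarith [sq_nonneg (SS η T t - Dd X (t + h) ^ 2)]
    have st3 : ∫ t in (T / 2 + 1)..(4 * T - 1), 2 * (SS η T t ^ 2 + Dd X (t + h) ^ 4) ≤
        2 * (C2 * T + C₀ * T) := by
      have i5 : IntervalIntegrable (fun t => SS η T t ^ 2) volume (T / 2 + 1) (4 * T - 1) :=
        (cS.pow 2).intervalIntegrable _ _
      rw [intervalIntegral.integral_const_mul, intervalIntegral.integral_add i5 i4h]
      have h5 : ∫ t in (T / 2 + 1)..(4 * T - 1), SS η T t ^ 2 ≤ ∫ t in (T / 4)..(8 * T), SS η T t ^ 2 :=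
        intervalIntegral.integral_mono_interval (by linarith) hAB' (by linarith)
          (Eventually.of_forall fun t => by
            show 0 ≤ SS η T t ^ 2
            positivity)
          ((cS.pow 2).intervalIntegrable _ _)
      have h6 := h5.trans k4
      linarith
    have st4 := st2.trans st3
    calc Real.log T / 2 * _ ≤ Real.log T / 2 * (2 * (C2 * T + C₀ * T)) := by gcongr
      _ = _ := by ring
  -- the rest
  have samp : ∀ (N : ℕ), (N : ℝ) ≤ T ^ θs → ∀ b : ℕ → ℂ,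
      ∑ s ∈ F, (mz s : ℝ) * ‖dp N b (s.im + h)‖ ^ 2 ≤ 2 * (Real.log T * (T * N2 N b)) := by
    intro N hN b
    obtain ⟨e1, e2⟩ := hDPM.2.1 N b 0 (-h)
    have e3 : ∀ γ : ℝ, dp N b (γ + h) = dp N (fun n => b n * (n : ℂ) ^ (((-h : ℝ) : ℂ) * I)) γ := by
      intro γ
      have := (hDPM.2.1 N b γ (-h)).1
      rw [sub_neg_eq_add] at this
      exact this
    obtain ⟨-, -, e4⟩ := hsa N hN (fun n => b n * (n : ℂ) ^ (((-h : ℝ) : ℂ) * I))
    rw [e2, ← hF] at e4
    have e5 := (abs_le.1 e4).2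
    have e6 : 0 ≤ N2 N b := by
      unfold N2
      exact Finset.sum_nonneg fun n _ => by positivity
    have e7 : Real.log T / (2 * Real.pi) ≤ Real.log T := by
      rw [div_le_iff₀ (by positivity)]
      nlinarith [Real.pi_gt_three]
    have e8 : 0 ≤ T * N2 N b := by positivity
    have e9 : Real.log T / (2 * Real.pi) * (T * N2 N b) ≤ Real.log T * (T * N2 N b) :=
      mul_le_mul_of_nonneg_right e7 e8
    calc ∑ s ∈ F, (mz s : ℝ) * ‖dp N b (s.im + h)‖ ^ 2
        = ∑ s ∈ F, (mz s : ℝ) * ‖dp N (fun n => b n * (n : ℂ) ^ (((-h : ℝ) : ℂ) * I)) s.im‖ ^ 2 := by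
          refine Finset.sum_congr rfl fun s _ => ?_
          rw [e3]
      _ ≤ _ := by linarith
  have r1 := samp 1 hN1s (fun _ => 1)
  rw [N2_one, mul_one] at r1
  simp only [dp_one, norm_one, one_pow, mul_one] at r1
  have r2 := samp X hXa (e1 X (Real.log T))
  have r3 := samp (X ^ 2) hXb (e2 X (Real.log T))
  have r2' : 2 * (Real.log T * (T * N2 X (e1 X (Real.log T)))) ≤ 2 * (Real.log T * (T * B)) := by
    have := hB X (Real.log T) hL hXl
    gcongr
  have r3' : 2 * (Real.log T * (T * N2 (X ^ 2) (e2 X (Real.log T)))) ≤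
      2 * (Real.log T * (T * Z0)) := by
    have := N2_e2 X hL
    gcongr
  calc ∑ s ∈ F, (mz s : ℝ) * (LM T (s.im + h) - (dp X (pc X) (s.im + h)).re) ^ 2
      ≤ ∑ s ∈ F, (4 * ((mz s : ℝ) * (Real.log T / 2 *
          ∫ t in (s.im + h - 1 / Real.log T)..(s.im + h + 1 / Real.log T), Dd X t ^ 2)) +
        4 * ((2 * Z0) ^ 2 * (mz s : ℝ)) +
        4 * ((mz s : ℝ) * ‖dp X (e1 X (Real.log T)) (s.im + h)‖ ^ 2) +
        4 * ((mz s : ℝ) * ‖dp (X ^ 2) (e2 X (Real.log T)) (s.im + h)‖ ^ 2)) := by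
        refine Finset.sum_le_sum fun s hs => ?_
        have h3 := point hL X (sub _ i1 s hs) (sub _ i2 s hs)
        have h6 : (0 : ℝ) ≤ mz s := Nat.cast_nonneg _
        have h7 := mul_le_mul_of_nonneg_left h3 h6
        calc (mz s : ℝ) * (LM T (s.im + h) - (dp X (pc X) (s.im + h)).re) ^ 2
            ≤ _ := h7
          _ = _ := by ring
    _ = 4 * (∑ s ∈ F, (mz s : ℝ) * (Real.log T / 2 *
          ∫ t in (s.im + h - 1 / Real.log T)..(s.im + h + 1 / Real.log T), Dd X t ^ 2)) +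
        4 * ((2 * Z0) ^ 2 * ∑ s ∈ F, (mz s : ℝ)) +
        4 * (∑ s ∈ F, (mz s : ℝ) * ‖dp X (e1 X (Real.log T)) (s.im + h)‖ ^ 2) +
        4 * (∑ s ∈ F, (mz s : ℝ) * ‖dp (X ^ 2) (e2 X (Real.log T)) (s.im + h)‖ ^ 2) := by
        rw [Finset.sum_add_distrib, Finset.sum_add_distrib, Finset.sum_add_distrib, Finset.mul_sum,
          Finset.mul_sum, Finset.mul_sum, Finset.mul_sum, Finset.mul_sum]
    _ ≤ 4 * ((C2 + C₀) * (Real.log T * T)) + 4 * ((2 * Z0) ^ 2 * (2 * (Real.log T * T))) +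
        4 * (2 * (Real.log T * (T * B))) + 4 * (2 * (Real.log T * (T * Z0))) := by
        gcongr
        · exact r2.trans r2'
        · exact r3.trans r3'
    _ = _ := by ring

end

end Pool.Agent.Q154.UM
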