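import Pool.Agent.Q97.UM.Stm21
import Pool.Agent.Q149.UM.MZ

set_option autoImplicit false

/-!
Project UM15 (helper97), job COV: the covariances (helper154).  From the estimate `t_MZ` of helper149 at `T ^ δ`
and the residue of zeta at `1`.
-/

namespace Pool.Agent.Q154.UM

open Pool.Agent.Q97.UM
open Filter Topology Complex

noncomputable section

theorem t_COV : S_COV := by
  intro s c h hs0 hs1 hc hh δ hδ
  obtain ⟨C, hC⟩ := Pool.Agent.Q149.UM.t_MZ 1 one_pos le_rfl
  have hL : Tendsto (fun T : ℝ => Real.log T) atTop atTop := Real.tendsto_log_atTop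
  have hLL : Tendsto (fun T : ℝ => Real.log (Real.log T)) atTop atTop := hL.comp hL
  -- the point
  set z : ℝ → ℂ := fun T => 1 / ((δ * Real.log T : ℝ) : ℂ) + (h T : ℂ) * I with hz
  have hzn : ∀ᶠ T : ℝ in atTop, ‖z T‖ * Real.log T ^ s =
      Real.sqrt ((Real.log T ^ (s - 1) / δ) ^ 2 + (|h T| * Real.log T ^ s) ^ 2) := by
    filter_upwards [hL.eventually_gt_atTop 0] with T hT
    have h1 : ‖z T‖ = Real.sqrt ((1 / (δ * Real.log T)) ^ 2 + (h T) ^ 2) := by
      rw [hz]
      have h2 : (1 / ((δ * Real.log T : ℝ) : ℂ) + (h T : ℂ) * I) =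
          ((1 / (δ * Real.log T) : ℝ) : ℂ) + (h T : ℂ) * I := by
        push_cast
        ring
      simp only
      rw [h2, Complex.norm_add_mul_I]
    have h2 : (0 : ℝ) < Real.log T ^ s := Real.rpow_pos_of_pos hT _
    have h3 : Real.log T ^ s = Real.sqrt ((Real.log T ^ s) ^ 2) := (Real.sqrt_sq h2.le).symm
    rw [h1]
    conv_lhs => rw [h3]
    rw [← Real.sqrt_mul (by positivity)]
    congr 1
    have h4 : Real.log T ^ (s - 1) = Real.log T ^ s / Real.log T := by
      rw [Real.rpow_sub hT, Real.rpow_one]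
    rw [h4, mul_pow, sq_abs]
    field_simp
  have hzc : Tendsto (fun T => ‖z T‖ * Real.log T ^ s) atTop (𝓝 c) := by
    have h1 : Tendsto (fun T : ℝ => Real.log T ^ (s - 1)) atTop (𝓝 0) := by
      have := (tendsto_rpow_neg_atTop (y := 1 - s) (by linarith)).comp hL
      refine this.congr fun T => ?_
      simp only [Function.comp]
      congr 1
      ring
    have h2 : Tendsto (fun T : ℝ => Real.sqrt ((Real.log T ^ (s - 1) / δ) ^ 2 +
        (|h T| * Real.log T ^ s) ^ 2)) atTop (𝓝 (Real.sqrt ((0 / δ) ^ 2 + c ^ 2))) :=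
      (((h1.div_const δ).pow 2).add (hh.pow 2)).sqrt
    rw [show Real.sqrt ((0 / δ) ^ 2 + c ^ 2) = c by
      rw [zero_div, zero_pow two_ne_zero, zero_add, Real.sqrt_sq hc.le]] at h2
    exact h2.congr' (hzn.mono fun T hT => hT.symm)
  have hz0 : ∀ᶠ T : ℝ in atTop, z T ≠ 0 := by
    filter_upwards [hzc.eventually_ne hc.ne'] with T hT h0
    apply hT
    rw [h0, norm_zero, zero_mul]
  have hzt : Tendsto z atTop (𝓝 0) := by
    rw [tendsto_zero_iff_norm_tendsto_zero]
    have h1 : Tendsto (fun T : ℝ => Real.log T ^ (-s)) atTop (𝓝 0) :=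
      (tendsto_rpow_neg_atTop hs0).comp hL
    have h2 := hzc.mul h1
    rw [mul_zero] at h2
    refine h2.congr' ?_
    filter_upwards [hL.eventually_gt_atTop 0] with T hT
    rw [mul_assoc, ← Real.rpow_add hT, add_neg_cancel, Real.rpow_zero, mul_one]
  -- the residue
  have hres : Tendsto (fun T => ‖z T‖ * ‖riemannZeta (1 + z T)‖) atTop (𝓝 1) := by
    have h1 : Tendsto (fun T => 1 + z T) atTop (𝓝[≠] 1) := by
      rw [tendsto_nhdsWithin_iff]
      refine ⟨?_, ?_⟩
      · simpa using hzt.const_add 1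
      · filter_upwards [hz0] with T hT
        simpa using hT
    have h2 := (riemannZeta_residue_one.comp h1).norm
    rw [norm_one] at h2
    refine h2.congr fun T => ?_
    simp
  have hlog : Tendsto (fun T => Real.log ‖riemannZeta (1 + z T)‖ - s * Real.log (Real.log T)) atTop
      (𝓝 (-Real.log c)) := by
    have h1 := (Real.continuousAt_log one_ne_zero).tendsto.comp hres
    have h2 := (Real.continuousAt_log hc.ne').tendsto.comp hzc
    rw [Real.log_one] at h1
    have h3 := h1.sub h2
    rw [zero_sub] at h3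
    refine h3.congr' ?_
    filter_upwards [hz0, hres.eventually_ne one_ne_zero, hL.eventually_gt_atTop 0] with T h0 hr hT
    have h4 : ‖riemannZeta (1 + z T)‖ ≠ 0 := fun h5 => hr (by rw [h5, mul_zero])
    simp only [Function.comp]
    rw [Real.log_mul (norm_ne_zero_iff.2 h0) h4,
      Real.log_mul (norm_ne_zero_iff.2 h0) (Real.rpow_pos_of_pos hT _).ne', Real.log_rpow hT]
    ring
  have hdiv : Tendsto (fun T => Real.log ‖riemannZeta (1 + z T)‖ / Real.log (Real.log T)) atTop
      (𝓝 s) := by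
    have h1 := hlog.div_atTop hLL
    have h2 := h1.add_const s
    rw [zero_add] at h2
    refine h2.congr' ?_
    filter_upwards [hLL.eventually_gt_atTop 0] with T hT
    field_simp
    ring
  -- the sum against zeta
  have hT' : Tendsto (fun T : ℝ => T ^ δ) atTop atTop := tendsto_rpow_atTop hδ
  have hcmp : ∀ᶠ T : ℝ in atTop,
      |(∑ p ∈ (Finset.Icc 1 ⌊T ^ δ⌋₊).filter Nat.Prime, Real.cos (h T * Real.log p) / p) -
        Real.log ‖riemannZeta (1 + z T)‖| ≤ C := by
    filter_upwards [hT'.eventually hC, eventually_gt_atTop 0] with T hT h0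
    have h1 := hT (h T)
    rw [Real.rpow_one, Real.log_rpow h0] at h1
    have h2 : (1 : ℂ) + 1 / ((δ * Real.log T : ℝ) : ℂ) + (h T : ℂ) * I = 1 + z T := by
      rw [hz]
      ring
    rw [h2] at h1
    exact h1
  have hdiff : Tendsto (fun T : ℝ =>
      ((∑ p ∈ (Finset.Icc 1 ⌊T ^ δ⌋₊).filter Nat.Prime, Real.cos (h T * Real.log p) / p) -
        Real.log ‖riemannZeta (1 + z T)‖) / Real.log (Real.log T)) atTop (𝓝 0) := by
    have h1 : Tendsto (fun T : ℝ => C / Real.log (Real.log T)) atTop (𝓝 0) := hLL.const_div_atTop C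
    refine squeeze_zero_norm' ?_ h1
    filter_upwards [hcmp, hLL.eventually_gt_atTop 0] with T hT hp
    rw [Real.norm_eq_abs, abs_div, abs_of_pos hp]
    exact div_le_div_of_nonneg_right hT hp.le
  have hfin := hdiff.add hdiv
  rw [zero_add] at hfin
  refine hfin.congr fun T => ?_
  rw [← add_div, sub_add_cancel]

end

end Pool.Agent.Q154.UM
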