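import Pool.Agent.Q154.UM.D4b

/-!
Project UM, job D4: a continuous real algebraic function is tame off a few points.
-/

set_option autoImplicit false

open Set Topology Filter
open scoped Polynomial

namespace Pool.Agent.Q154.UM

open Pool.Agent.Q62.UM

noncomputable section

/-- the iterated derivative of the order of the degree is the leading coefficient times a factorial -/
lemma iter_deriv_top (A : ℂ[X][X]) :
    (Polynomial.derivative^[A.natDegree]) A =
      Polynomial.C (Polynomial.C ((A.natDegree.factorial : ℕ) : ℂ) * A.coeff A.natDegree) := by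
  have h1 : ((Polynomial.derivative^[A.natDegree]) A).natDegree ≤ 0 := by
    have := Polynomial.natDegree_iterate_derivative A A.natDegree
    omega
  rw [Polynomial.eq_C_of_natDegree_le_zero h1, Polynomial.coeff_iterate_derivative, zero_add,
    Nat.descFactorial_self]
  congr 1
  rw [nsmul_eq_mul]
  congr 1

/-- not all derivatives vanish on an interval -/
lemma top_ne {A : ℂ[X][X]} (hA : A ≠ 0) {I : Set ℝ} (hI : IsOpen I) (hne : I.Nonempty)
    (f : ℝ → ℝ) : ¬ ∀ u ∈ I, ev ((Polynomial.derivative^[A.natDegree]) A) u (f u) = 0 := by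
  intro h
  apply hA
  rw [← Polynomial.leadingCoeff_eq_zero]
  apply Polynomial.eq_zero_of_infinite_isRoot
  obtain ⟨u0, hu0⟩ := hne
  have h1 : I.Infinite := infinite_of_mem_nhds u0 (hI.mem_nhds hu0)
  have h2 : ((fun u : ℝ => (Real.exp u : ℂ)) '' I).Infinite := by
    apply h1.image
    intro x _ y _ hxy
    have hxy' : ((Real.exp x : ℝ) : ℂ) = ((Real.exp y : ℝ) : ℂ) := hxy
    have : Real.exp x = Real.exp y := by exact_mod_cast hxy'
    exact Real.exp_injective this
  refine h2.mono ?_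
  rintro _ ⟨u, hu, rfl⟩
  have h3 := h u hu
  rw [iter_deriv_top, ev_C, Polynomial.eval_mul, Polynomial.eval_C] at h3
  have h4 : ((A.natDegree.factorial : ℕ) : ℂ) ≠ 0 := by
    exact_mod_cast Nat.factorial_ne_zero _
  rcases mul_eq_zero.mp h3 with h5 | h5
  · exact absurd h5 h4
  · exact h5

lemma Dg.iter {P : ℂ[X][X]} {a : ℕ} (hP : Dg P a) (k : ℕ) :
    Dg ((Polynomial.derivative^[k]) P) a := by
  induction k with
  | zero => exact hP
  | succ k ih =>
    rw [Function.iterate_succ_apply']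
    exact ih.der

/-- tameness on an interval where the dichotomies hold -/
lemma tame_of {A : ℂ[X][X]} {D : ℕ} (hA : A ≠ 0) (hAD : A.natDegree ≤ D) {I : Set ℝ} (hI : OI I)
    {f : ℝ → ℝ} (hf : ContinuousOn f I) (h0 : ∀ u ∈ I, ev A u (f u) = 0)
    (hz : (∀ u ∈ I, (f u : ℂ) = 0) ∨ (∀ u ∈ I, (f u : ℂ) ≠ 0))
    (hg : ∀ k ≤ D, (∀ u ∈ I, ev ((Polynomial.derivative^[k]) A) u (f u) = 0) ∨
      (∀ u ∈ I, ev ((Polynomial.derivative^[k]) A) u (f u) ≠ 0))
    (hh : ∀ k < D, ∀ l < 3,
      (∀ u ∈ I, ev (PP ((Polynomial.derivative^[k]) A) l) u (f u) = 0) ∨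
      (∀ u ∈ I, ev (PP ((Polynomial.derivative^[k]) A) l) u (f u) ≠ 0)) : Tame f I := by
  classical
  rcases I.eq_empty_or_nonempty with hE | hne
  · rw [hE]
    refine ⟨contDiffOn_empty, fun l _ => Or.inl fun u hu => absurd hu (Set.notMem_empty u)⟩
  have hex : ∃ k, ¬ ∀ u ∈ I, ev ((Polynomial.derivative^[k]) A) u (f u) = 0 :=
    ⟨_, top_ne hA hI.1 hne f⟩
  obtain ⟨k, hk⟩ : ∃ k, k = Nat.find hex := ⟨_, rfl⟩
  have hk1 : ¬ ∀ u ∈ I, ev ((Polynomial.derivative^[k]) A) u (f u) = 0 := by
    rw [hk]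
    exact Nat.find_spec hex
  have hk2 : k ≤ D := by
    rw [hk]
    exact le_trans (Nat.find_min' hex (top_ne hA hI.1 hne f)) hAD
  have hk3 : k ≠ 0 := by
    intro h
    rw [h] at hk1
    exact hk1 h0
  obtain ⟨j, rfl⟩ : ∃ j, k = j + 1 := ⟨k - 1, by omega⟩
  have hk4 : ∀ u ∈ I, ev ((Polynomial.derivative^[j]) A) u (f u) = 0 := by
    have := Nat.find_min hex (show j < Nat.find hex by omega)
    push Not at this
    exact this
  have hk5 : ∀ u ∈ I, ev (Polynomial.derivative ((Polynomial.derivative^[j]) A)) u (f u) ≠ 0 := by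
    have h1 := (hg (j + 1) hk2).resolve_left hk1
    rw [Function.iterate_succ_apply'] at h1
    exact h1
  refine ⟨?_, ?_⟩
  · have := smooth hI.1 hf hk4 hk5 4
    exact_mod_cast this
  · intro l hl
    rcases Nat.eq_zero_or_pos l with hl0 | hl0
    · rw [hl0]
      simp only [iteratedDeriv_zero]
      apply const_sign hI.2 hf
      rcases hz with h | h
      · left
        intro u hu
        exact_mod_cast h u hu
      · right
        intro u hu h'
        exact h u hu (by rw [h']; simp)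
    · obtain ⟨m, rfl⟩ : ∃ m, l = m + 1 := ⟨l - 1, by omega⟩
      have h1 := iter hI.1 hf hk4 hk5 m
      apply const_sign hI.2
      · have h2 : ContinuousOn (qq ((Polynomial.derivative^[j]) A) f m) I := by
          intro u hu
          exact (der3 hI.1 hf hk4 hk5 m hu).continuousAt.continuousWithinAt
        have h3 : ContinuousOn (fun u => (qq ((Polynomial.derivative^[j]) A) f m u).re) I :=
          Complex.continuous_re.comp_continuousOn h2
        refine h3.congr ?_
        intro u hu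
        show iteratedDeriv (m + 1) f u = (qq ((Polynomial.derivative^[j]) A) f m u).re
        rw [← h1 u hu, Complex.ofReal_re]
      · rcases hh j (by omega) m (by omega) with h | h
        · left
          intro u hu
          have h2 := h1 u hu
          rw [qq, h u hu, zero_div] at h2
          exact_mod_cast h2
        · right
          intro u hu h'
          have h2 := h1 u hu
          rw [h', qq] at h2
          have h3 : ev (PP ((Polynomial.derivative^[j]) A) m) u (f u) /
              ev (Polynomial.derivative ((Polynomial.derivative^[j]) A)) u (f u) ^ (2 * m + 1) ≠ 0 :=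
            div_ne_zero (h u hu) (pow_ne_zero _ (hk5 u hu))
          exact h3 (by rw [← h2]; simp)

/-- **D4** -/
theorem t_D4 (hu : S_DU) (h3 : S_D3) : S_D4 := by
  classical
  intro D J f hD hJ hf hAlg
  obtain ⟨A, hA, hAD, hAD', h0⟩ := hAlg
  have hAlg : Alg D J (fun u => (f u : ℂ)) := ⟨A, hA, hAD, hAD', h0⟩
  have hdg : Dg A D := ⟨hAD, hAD'⟩
  have key : ∀ (P : ℂ[X][X]) (e : ℕ), 1 ≤ e → Dg P e → ∃ Z : Finset ℝ, Z.card ≤ 4 * e * D ^ 2 ∧
      ∀ I, OI I → I ⊆ J → Disjoint I (Z : Set ℝ) →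
        (∀ u ∈ I, ev P u (f u) = 0) ∨ (∀ u ∈ I, ev P u (f u) ≠ 0) := by
    intro P e he hP
    exact h3 (4 * e * D ^ 2) J (fun u => ev P u (f u)) hJ (cont_ev hf P)
      (hu D e J (fun u => (f u : ℂ)) P hD he hP.1 hP.2 hAlg)
  obtain ⟨Z0, hZ0, hZ0'⟩ := h3 D J (fun u => (f u : ℂ)) hJ
    (Complex.continuous_ofReal.comp_continuousOn hf) hAlg
  have kg : ∀ k : ℕ, ∃ Z : Finset ℝ, Z.card ≤ 4 * D * D ^ 2 ∧
      ∀ I, OI I → I ⊆ J → Disjoint I (Z : Set ℝ) →
        (∀ u ∈ I, ev ((Polynomial.derivative^[k]) A) u (f u) = 0) ∨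
          (∀ u ∈ I, ev ((Polynomial.derivative^[k]) A) u (f u) ≠ 0) :=
    fun k => key _ D hD (hdg.iter k)
  choose Zg hZg hZg' using kg
  have kh : ∀ x : ℕ × ℕ, ∃ Z : Finset ℝ, (x.2 < 3 → Z.card ≤ 20 * D * D ^ 2) ∧
      ∀ I, OI I → I ⊆ J → Disjoint I (Z : Set ℝ) →
        (∀ u ∈ I, ev (PP ((Polynomial.derivative^[x.1]) A) x.2) u (f u) = 0) ∨
          (∀ u ∈ I, ev (PP ((Polynomial.derivative^[x.1]) A) x.2) u (f u) ≠ 0) := by
    intro x
    obtain ⟨Z, hZ, hZ'⟩ := key _ ((2 * x.2 + 1) * D) (Nat.mul_pos (by omega) hD)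
      ((hdg.iter x.1).PP x.2)
    refine ⟨Z, ?_, hZ'⟩
    intro hx
    refine le_trans hZ ?_
    have h1 : 2 * x.2 + 1 ≤ 5 := by omega
    calc 4 * ((2 * x.2 + 1) * D) * D ^ 2 ≤ 4 * (5 * D) * D ^ 2 := by gcongr
      _ = 20 * D * D ^ 2 := by ring
  choose Zh hZh hZh' using kh
  refine ⟨Z0 ∪ (Finset.range (D + 1)).biUnion Zg ∪ (Finset.range D ×ˢ Finset.range 3).biUnion Zh,
    ?_, ?_⟩
  · have c1 : ((Finset.range (D + 1)).biUnion Zg).card ≤ (D + 1) * (4 * D * D ^ 2) := by
      refine le_trans Finset.card_biUnion_le ?_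
      refine le_trans (Finset.sum_le_card_nsmul _ _ _ (fun k _ => hZg k)) ?_
      rw [Finset.card_range, smul_eq_mul]
    have c2 : ((Finset.range D ×ˢ Finset.range 3).biUnion Zh).card ≤
        (D * 3) * (20 * D * D ^ 2) := by
      refine le_trans Finset.card_biUnion_le ?_
      refine le_trans (Finset.sum_le_card_nsmul _ _ _ (fun x hx => hZh x ?_)) ?_
      · rw [Finset.mem_product, Finset.mem_range, Finset.mem_range] at hx
        exact hx.2
      · rw [Finset.card_product, Finset.card_range, Finset.card_range, smul_eq_mul]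
    have c3 := Finset.card_union_le (Z0 ∪ (Finset.range (D + 1)).biUnion Zg)
      ((Finset.range D ×ˢ Finset.range 3).biUnion Zh)
    have c4 := Finset.card_union_le Z0 ((Finset.range (D + 1)).biUnion Zg)
    have c5 : D ≤ D ^ 4 := Nat.le_self_pow (by norm_num) D
    have c6 : D ^ 3 ≤ D ^ 4 := Nat.pow_le_pow_right hD (by norm_num)
    have c7 : (D + 1) * (4 * D * D ^ 2) = 4 * D ^ 4 + 4 * D ^ 3 := by ring
    have c8 : (D * 3) * (20 * D * D ^ 2) = 60 * D ^ 4 := by ring
    omega
  · intro I hI hIJ hdis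
    rw [Finset.coe_union, Finset.coe_union, Set.disjoint_union_right,
      Set.disjoint_union_right] at hdis
    obtain ⟨⟨d0, d1⟩, d2⟩ := hdis
    apply tame_of hA hAD hI (hf.mono hIJ) (fun u hu => h0 u (hIJ hu)) (hZ0' I hI hIJ d0)
    · intro k hk
      apply hZg' k I hI hIJ
      refine d1.mono_right ?_
      intro x hx
      rw [Finset.mem_coe, Finset.mem_biUnion]
      exact ⟨k, Finset.mem_range.mpr (by omega), hx⟩
    · intro k hk l hl
      apply hZh' (k, l) I hI hIJ
      refine d2.mono_right ?_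
      intro x hx
      rw [Finset.mem_coe, Finset.mem_biUnion]
      exact ⟨(k, l), Finset.mem_product.mpr ⟨Finset.mem_range.mpr hk, Finset.mem_range.mpr hl⟩, hx⟩

end

end Pool.Agent.Q154.UM
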