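import Pool.Agent.Q62.UM.Stm2

/-!
Project UM, job D4, part 1: derivatives of polynomials in `exp u` and an algebraic function.
-/

set_option autoImplicit false

open Set Topology Filter
open scoped Polynomial

namespace Pool.Agent.Q154.UM

open Pool.Agent.Q62.UM

noncomputable section

/-- the operator `r ∂_r` -/
def th (P : ℂ[X][X]) : ℂ[X][X] :=
  ∑ i ∈ Finset.range (P.natDegree + 1),
    Polynomial.monomial i (Polynomial.X * Polynomial.derivative (P.coeff i))

lemma coeff_th (P : ℂ[X][X]) (i : ℕ) :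
    (th P).coeff i = Polynomial.X * Polynomial.derivative (P.coeff i) := by
  unfold th
  rw [Polynomial.finsetSum_coeff]
  simp only [Polynomial.coeff_monomial]
  rw [Finset.sum_ite_eq' (Finset.range (P.natDegree + 1)) i]
  split_ifs with h
  · rfl
  · rw [Polynomial.coeff_eq_zero_of_natDegree_lt, Polynomial.derivative_zero, mul_zero]
    simp only [Finset.mem_range, not_lt] at h
    omega

lemma th_add (P Q : ℂ[X][X]) : th (P + Q) = th P + th Q := by
  ext1 i
  rw [Polynomial.coeff_add, coeff_th, coeff_th, coeff_th, Polynomial.coeff_add,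
    Polynomial.derivative_add, mul_add]

lemma th_monomial (n : ℕ) (a : ℂ[X]) :
    th (Polynomial.monomial n a) =
      Polynomial.monomial n (Polynomial.X * Polynomial.derivative a) := by
  ext1 i
  rw [coeff_th, Polynomial.coeff_monomial, Polynomial.coeff_monomial]
  split_ifs
  · rfl
  · rw [Polynomial.derivative_zero, mul_zero]

lemma ev_add (P Q : ℂ[X][X]) (u : ℝ) (t : ℂ) : ev (P + Q) u t = ev P u t + ev Q u t := by
  simp [ev]

lemma ev_sub (P Q : ℂ[X][X]) (u : ℝ) (t : ℂ) : ev (P - Q) u t = ev P u t - ev Q u t := by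
  simp [ev]

lemma ev_neg (P : ℂ[X][X]) (u : ℝ) (t : ℂ) : ev (-P) u t = -ev P u t := by
  simp [ev]

lemma ev_mul (P Q : ℂ[X][X]) (u : ℝ) (t : ℂ) : ev (P * Q) u t = ev P u t * ev Q u t := by
  simp [ev]

lemma ev_monomial (n : ℕ) (a : ℂ[X]) (u : ℝ) (t : ℂ) :
    ev (Polynomial.monomial n a) u t = a.eval (Real.exp u : ℂ) * t ^ n := by
  simp only [ev, Polynomial.map_monomial, Polynomial.eval_monomial, Polynomial.coe_evalRingHom]

lemma ev_C (a : ℂ[X]) (u : ℝ) (t : ℂ) :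
    ev (Polynomial.C a) u t = a.eval (Real.exp u : ℂ) := by
  simp only [ev, Polynomial.map_C, Polynomial.eval_C, Polynomial.coe_evalRingHom]

/-- derivative of a polynomial in `exp u` -/
lemma hasDerivAt_eval_exp (a : ℂ[X]) (u : ℝ) :
    HasDerivAt (fun u : ℝ => a.eval (Real.exp u : ℂ))
      ((Polynomial.X * Polynomial.derivative a).eval (Real.exp u : ℂ)) u := by
  have h1 : HasDerivAt (fun u : ℝ => ((Real.exp u : ℝ) : ℂ)) (Real.exp u : ℂ) u :=
    (Real.hasDerivAt_exp u).ofReal_comp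
  have h2 := (a.hasDerivAt (Real.exp u : ℂ)).comp_of_eq u h1 rfl
  rw [Polynomial.eval_mul, Polynomial.eval_X, mul_comm]
  exact h2

/-- total derivative -/
lemma hasFDerivAt_ev (P : ℂ[X][X]) (p : ℝ × ℂ) :
    HasFDerivAt (fun p : ℝ × ℂ => ev P p.1 p.2)
      ((ev (th P) p.1 p.2) • (Complex.ofRealCLM ∘L ContinuousLinearMap.fst ℝ ℝ ℂ) +
        (ev P.derivative p.1 p.2) • (ContinuousLinearMap.snd ℝ ℝ ℂ)) p := by
  induction P using Polynomial.induction_on' with
  | add P Q hP hQ =>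
    have h := hP.add hQ
    have e1 : (fun p : ℝ × ℂ => ev (P + Q) p.1 p.2) =
        (fun p : ℝ × ℂ => ev P p.1 p.2) + fun p : ℝ × ℂ => ev Q p.1 p.2 := by
      funext p
      exact ev_add P Q p.1 p.2
    rw [e1]
    refine h.congr_fderiv ?_
    rw [th_add, Polynomial.derivative_add, ev_add, ev_add]
    ext x
    · simp
    · simp [add_mul]
  | monomial n a =>
    have e1 : (fun p : ℝ × ℂ => ev (Polynomial.monomial n a) p.1 p.2) =
        fun p : ℝ × ℂ => a.eval (Real.exp p.1 : ℂ) * p.2 ^ n := by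
      funext p
      exact ev_monomial n a p.1 p.2
    rw [e1, th_monomial, Polynomial.derivative_monomial, ev_monomial, ev_monomial]
    have h1 : HasFDerivAt (fun p : ℝ × ℂ => a.eval (Real.exp p.1 : ℂ))
        (((Polynomial.X * Polynomial.derivative a).eval (Real.exp p.1 : ℂ)) •
          (Complex.ofRealCLM ∘L ContinuousLinearMap.fst ℝ ℝ ℂ)) p := by
      have h := (hasDerivAt_eval_exp a p.1).hasFDerivAt.comp p (hasFDerivAt_fst (𝕜 := ℝ))
      refine h.congr_fderiv ?_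
      ext x
      · simp [mul_comm]
      · simp
    have h2 : HasFDerivAt (fun p : ℝ × ℂ => p.2 ^ n)
        ((n • p.2 ^ (n - 1)) • ContinuousLinearMap.snd ℝ ℝ ℂ) p :=
      (hasFDerivAt_snd (𝕜 := ℝ)).pow n
    refine (h1.mul h2).congr_fderiv ?_
    ext x
    · simp [mul_comm, mul_left_comm]
    · simp
      ring

lemma contDiff_eval (a : ℂ[X]) (n : ℕ) : ContDiff ℝ n (fun z : ℂ => a.eval z) := by
  induction a using Polynomial.induction_on' with
  | add p q hp hq =>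
    simp only [Polynomial.eval_add]
    exact hp.add hq
  | monomial m c =>
    simp only [Polynomial.eval_monomial]
    exact contDiff_const.mul (contDiff_id.pow m)

lemma contDiff_ev (P : ℂ[X][X]) (n : ℕ) :
    ContDiff ℝ n (fun p : ℝ × ℂ => ev P p.1 p.2) := by
  induction P using Polynomial.induction_on' with
  | add P Q hP hQ =>
    have e1 : (fun p : ℝ × ℂ => ev (P + Q) p.1 p.2) =
        (fun p : ℝ × ℂ => ev P p.1 p.2) + fun p : ℝ × ℂ => ev Q p.1 p.2 := by
      funext p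
      exact ev_add P Q p.1 p.2
    rw [e1]
    exact hP.add hQ
  | monomial k a =>
    have e1 : (fun p : ℝ × ℂ => ev (Polynomial.monomial k a) p.1 p.2) =
        fun p : ℝ × ℂ => a.eval (Real.exp p.1 : ℂ) * p.2 ^ k := by
      funext p
      exact ev_monomial k a p.1 p.2
    rw [e1]
    have h1 : ContDiff ℝ n (fun p : ℝ × ℂ => ((Real.exp p.1 : ℝ) : ℂ)) :=
      Complex.ofRealCLM.contDiff.comp (Real.contDiff_exp.comp contDiff_fst)
    have h2 : ContDiff ℝ n (fun z : ℂ => a.eval z) := contDiff_eval a n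
    exact (h2.comp h1).mul (contDiff_snd.pow k)

/-- the implicit function theorem (derivative of a continuous solution) -/
lemma impl {F : ℝ × ℂ → ℂ} {f : ℝ → ℂ} {u0 : ℝ} {a b : ℂ}
    (hF : HasFDerivAt F (a • (Complex.ofRealCLM ∘L ContinuousLinearMap.fst ℝ ℝ ℂ) +
      b • ContinuousLinearMap.snd ℝ ℝ ℂ) (u0, f u0))
    (hb : b ≠ 0) (hf : ContinuousAt f u0) (h0 : ∀ᶠ u in 𝓝 u0, F (u, f u) = 0) :
    HasDerivAt f (-a / b) u0 := by
  have hc : Tendsto (fun u => (u, f u)) (𝓝 u0) (𝓝 (u0, f u0)) := continuousAt_id.prodMk hf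
  have h1 := hF.isLittleO.comp_tendsto hc
  have h00 : F (u0, f u0) = 0 := h0.self_of_nhds
  have h2 : (fun u => (a * ((u - u0 : ℝ) : ℂ) + b * (f u - f u0))) =o[𝓝 u0]
      fun u => ((u - u0, f u - f u0) : ℝ × ℂ) := by
    have h3 := h1.neg_left
    refine h3.congr' ?_ ?_
    · filter_upwards [h0] with u hu
      simp only [Function.comp_apply, hu, h00]
      simp
    · filter_upwards with u
      simp
  have hb0 : 0 < ‖b‖ := norm_pos_iff.mpr hb
  have h3 : (fun u => f u - f u0) =O[𝓝 u0] fun u => u - u0 := by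
    apply Asymptotics.IsBigO.of_bound (2 * ‖a‖ / ‖b‖ + 1)
    have h4 := h2.bound (show 0 < ‖b‖ / 2 by positivity)
    filter_upwards [h4] with u hu
    have e1 : ‖((u - u0, f u - f u0) : ℝ × ℂ)‖ ≤ ‖u - u0‖ + ‖f u - f u0‖ := by
      rw [Prod.norm_mk]
      exact max_le (by linarith [norm_nonneg (f u - f u0)]) (by linarith [norm_nonneg (u - u0)])
    have e2 : ‖b‖ * ‖f u - f u0‖ ≤ ‖a * ((u - u0 : ℝ) : ℂ) + b * (f u - f u0)‖ +
        ‖a‖ * ‖u - u0‖ := by
      have e3 : b * (f u - f u0) = (a * ((u - u0 : ℝ) : ℂ) + b * (f u - f u0)) -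
          a * ((u - u0 : ℝ) : ℂ) := by ring
      calc ‖b‖ * ‖f u - f u0‖ = ‖b * (f u - f u0)‖ := (norm_mul _ _).symm
        _ = ‖(a * ((u - u0 : ℝ) : ℂ) + b * (f u - f u0)) - a * ((u - u0 : ℝ) : ℂ)‖ := by
          rw [← e3]
        _ ≤ ‖a * ((u - u0 : ℝ) : ℂ) + b * (f u - f u0)‖ + ‖a * ((u - u0 : ℝ) : ℂ)‖ :=
          norm_sub_le _ _
        _ = _ := by rw [norm_mul a, Complex.norm_real]
    have e4 : ‖b‖ / 2 * ‖((u - u0, f u - f u0) : ℝ × ℂ)‖ ≤
        ‖b‖ / 2 * (‖u - u0‖ + ‖f u - f u0‖) := mul_le_mul_of_nonneg_left e1 (by positivity)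
    have e5 : ‖b‖ / 2 * ‖f u - f u0‖ ≤ (‖a‖ + ‖b‖ / 2) * ‖u - u0‖ := by linarith
    have e6 : ‖f u - f u0‖ = (2 / ‖b‖) * (‖b‖ / 2 * ‖f u - f u0‖) := by field_simp
    rw [e6]
    calc (2 / ‖b‖) * (‖b‖ / 2 * ‖f u - f u0‖) ≤ (2 / ‖b‖) * ((‖a‖ + ‖b‖ / 2) * ‖u - u0‖) :=
          mul_le_mul_of_nonneg_left e5 (by positivity)
      _ = (2 * ‖a‖ / ‖b‖ + 1) * ‖u - u0‖ := by field_simp
  have h4 : (fun u => ((u - u0, f u - f u0) : ℝ × ℂ)) =O[𝓝 u0] fun u => u - u0 :=
    (Asymptotics.isBigO_refl _ _).prod_left h3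
  have h5 := (h2.trans_isBigO h4).const_mul_left b⁻¹
  rw [hasDerivAt_iff_isLittleO]
  refine h5.congr_left ?_
  intro u
  rw [Complex.real_smul]
  field_simp
  ring

lemma real_deriv {g : ℝ → ℝ} {c : ℂ} {u : ℝ} (h : HasDerivAt (fun u => (g u : ℂ)) c u) :
    HasDerivAt g c.re u ∧ c = ((deriv g u : ℝ) : ℂ) := by
  have h1 : HasDerivAt g c.re u := by
    have h2 := (Complex.reCLM.hasFDerivAt (x := (g u : ℂ))).comp_hasDerivAt u h
    exact h2
  refine ⟨h1, ?_⟩
  have h3 : HasDerivAt (fun u => (g u : ℂ)) ((c.re : ℝ) : ℂ) u := h1.ofReal_comp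
  rw [h1.deriv]
  exact h.unique h3

end

end Pool.Agent.Q154.UM
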