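import Pool.Agent.Q154.UM.D4a

/-!
Project UM, job D4, part 2: the derivatives of an algebraic function on an interval.
-/

set_option autoImplicit false

open Set Topology Filter
open scoped Polynomial

namespace Pool.Agent.Q154.UM

open Pool.Agent.Q62.UM

noncomputable section

/-- the derivative along the curve, times `B_t` -/
def TT (B P : ℂ[X][X]) : ℂ[X][X] :=
  th P * Polynomial.derivative B - Polynomial.derivative P * th B

/-- the numerators of the derivatives -/
def PP (B : ℂ[X][X]) : ℕ → ℂ[X][X]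
  | 0 => -th B
  | l + 1 => TT B (PP B l) * Polynomial.derivative B -
      Polynomial.C (Polynomial.C ((2 * l + 1 : ℕ) : ℂ)) *
        (PP B l * TT B (Polynomial.derivative B))

/-- degrees in both variables -/
def Dg (P : ℂ[X][X]) (e : ℕ) : Prop := P.natDegree ≤ e ∧ ∀ i, (P.coeff i).natDegree ≤ e

lemma Dg.mul {P Q : ℂ[X][X]} {a b : ℕ} (hP : Dg P a) (hQ : Dg Q b) : Dg (P * Q) (a + b) := by
  refine ⟨le_trans Polynomial.natDegree_mul_le (add_le_add hP.1 hQ.1), ?_⟩
  intro i
  rw [Polynomial.coeff_mul]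
  apply Polynomial.natDegree_sum_le_of_forall_le
  intro x _
  exact le_trans Polynomial.natDegree_mul_le (add_le_add (hP.2 _) (hQ.2 _))

lemma Dg.mono {P : ℂ[X][X]} {a b : ℕ} (hP : Dg P a) (h : a ≤ b) : Dg P b :=
  ⟨le_trans hP.1 h, fun i => le_trans (hP.2 i) h⟩

lemma Dg.sub {P Q : ℂ[X][X]} {a : ℕ} (hP : Dg P a) (hQ : Dg Q a) : Dg (P - Q) a := by
  refine ⟨le_trans (Polynomial.natDegree_sub_le _ _) (max_le hP.1 hQ.1), ?_⟩
  intro i
  rw [Polynomial.coeff_sub]
  exact le_trans (Polynomial.natDegree_sub_le _ _) (max_le (hP.2 i) (hQ.2 i))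

lemma Dg.neg {P : ℂ[X][X]} {a : ℕ} (hP : Dg P a) : Dg (-P) a := by
  refine ⟨by rw [Polynomial.natDegree_neg]; exact hP.1, ?_⟩
  intro i
  rw [Polynomial.coeff_neg, Polynomial.natDegree_neg]
  exact hP.2 i

lemma Dg.th {P : ℂ[X][X]} {a : ℕ} (hP : Dg P a) : Dg (th P) a := by
  constructor
  · rw [Polynomial.natDegree_le_iff_coeff_eq_zero]
    intro i hi
    rw [coeff_th, Polynomial.coeff_eq_zero_of_natDegree_lt (lt_of_le_of_lt hP.1 hi),
      Polynomial.derivative_zero, mul_zero]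
  · intro i
    rw [coeff_th]
    by_cases h : (P.coeff i).natDegree = 0
    · rw [Polynomial.eq_C_of_natDegree_eq_zero h, Polynomial.derivative_C, mul_zero]
      simp
    · have h1 := Polynomial.natDegree_derivative_le (P.coeff i)
      have h2 : (Polynomial.X * Polynomial.derivative (P.coeff i)).natDegree ≤
          1 + (Polynomial.derivative (P.coeff i)).natDegree :=
        le_trans Polynomial.natDegree_mul_le (by
          rw [Polynomial.natDegree_X])
      have h3 := hP.2 i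
      omega

lemma Dg.der {P : ℂ[X][X]} {a : ℕ} (hP : Dg P a) : Dg (Polynomial.derivative P) a := by
  constructor
  · exact le_trans (Polynomial.natDegree_derivative_le P) (le_trans (Nat.sub_le _ _) hP.1)
  · intro i
    rw [Polynomial.coeff_derivative]
    refine le_trans Polynomial.natDegree_mul_le ?_
    have h1 : ((i : ℂ[X]) + 1).natDegree = 0 := by
      have : ((i : ℂ[X]) + 1) = ((i + 1 : ℕ) : ℂ[X]) := by push_cast; ring
      rw [this, Polynomial.natDegree_natCast]
    rw [h1, add_zero]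
    exact hP.2 _

lemma Dg.const (c : ℂ) : Dg (Polynomial.C (Polynomial.C c)) 0 := by
  constructor
  · rw [Polynomial.natDegree_C]
  · intro i
    rw [Polynomial.coeff_C]
    split_ifs
    · rw [Polynomial.natDegree_C]
    · rw [Polynomial.natDegree_zero]

lemma Dg.TT {B P : ℂ[X][X]} {a D : ℕ} (hB : Dg B D) (hP : Dg P a) : Dg (TT B P) (a + D) :=
  (hP.th.mul hB.der).sub (hP.der.mul hB.th)

lemma Dg.PP {B : ℂ[X][X]} {D : ℕ} (hB : Dg B D) (l : ℕ) : Dg (PP B l) ((2 * l + 1) * D) := by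
  induction l with
  | zero =>
    have h := hB.th.neg
    rw [mul_zero, zero_add, one_mul]
    exact h
  | succ l ih =>
    have h1 : Dg (UM.TT B (UM.PP B l) * Polynomial.derivative B) ((2 * (l + 1) + 1) * D) := by
      have h := (hB.TT ih).mul hB.der
      refine h.mono (le_of_eq ?_)
      ring
    have h2 : Dg (Polynomial.C (Polynomial.C ((2 * l + 1 : ℕ) : ℂ)) *
        (UM.PP B l * UM.TT B (Polynomial.derivative B))) ((2 * (l + 1) + 1) * D) := by
      have h := (Dg.const ((2 * l + 1 : ℕ) : ℂ)).mul (ih.mul (hB.TT hB.der))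
      refine h.mono (le_of_eq ?_)
      ring
    exact h1.sub h2

section

variable {I : Set ℝ} {f : ℝ → ℝ} {B : ℂ[X][X]}

lemma der1 (hI : IsOpen I) (hf : ContinuousOn f I) (h0 : ∀ u ∈ I, ev B u (f u) = 0)
    (h1 : ∀ u ∈ I, ev (Polynomial.derivative B) u (f u) ≠ 0) {u : ℝ} (hu : u ∈ I) :
    HasDerivAt (fun u => (f u : ℂ))
      (-ev (th B) u (f u) / ev (Polynomial.derivative B) u (f u)) u := by
  apply impl (F := fun p : ℝ × ℂ => ev B p.1 p.2) (f := fun u => (f u : ℂ))
    (hasFDerivAt_ev B (u, (f u : ℂ))) (h1 u hu)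
  · exact Complex.continuous_ofReal.continuousAt.comp (hf.continuousAt (hI.mem_nhds hu))
  · filter_upwards [hI.mem_nhds hu] with x hx
    exact h0 x hx

lemma der2 (hI : IsOpen I) (hf : ContinuousOn f I) (h0 : ∀ u ∈ I, ev B u (f u) = 0)
    (h1 : ∀ u ∈ I, ev (Polynomial.derivative B) u (f u) ≠ 0) (P : ℂ[X][X]) {u : ℝ}
    (hu : u ∈ I) :
    HasDerivAt (fun u => ev P u (f u))
      (ev (TT B P) u (f u) / ev (Polynomial.derivative B) u (f u)) u := by
  have h2 := der1 hI hf h0 h1 hu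
  have h3 : HasDerivAt (fun u => ((u, (f u : ℂ)) : ℝ × ℂ))
      ((1, -ev (th B) u (f u) / ev (Polynomial.derivative B) u (f u)) : ℝ × ℂ) u :=
    (hasDerivAt_id u).prodMk h2
  have h4 := (hasFDerivAt_ev P (u, (f u : ℂ))).comp_hasDerivAt u h3
  refine h4.congr_deriv ?_
  have hne := h1 u hu
  simp only [TT, ev_sub, ev_mul, add_apply, smul_apply,
    ContinuousLinearMap.comp_apply, ContinuousLinearMap.coe_fst', ContinuousLinearMap.coe_snd',
    Complex.ofRealCLM_apply, smul_eq_mul, Complex.ofReal_one]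
  field_simp
  ring

/-- the derivatives of `f` -/
def qq (B : ℂ[X][X]) (f : ℝ → ℝ) (l : ℕ) (u : ℝ) : ℂ :=
  ev (PP B l) u (f u) / ev (Polynomial.derivative B) u (f u) ^ (2 * l + 1)

lemma der3 (hI : IsOpen I) (hf : ContinuousOn f I) (h0 : ∀ u ∈ I, ev B u (f u) = 0)
    (h1 : ∀ u ∈ I, ev (Polynomial.derivative B) u (f u) ≠ 0) (l : ℕ) {u : ℝ} (hu : u ∈ I) :
    HasDerivAt (qq B f l) (qq B f (l + 1) u) u := by
  have hne := h1 u hu
  have h2 := der2 hI hf h0 h1 (PP B l) hu
  have h3 := (der2 hI hf h0 h1 (Polynomial.derivative B) hu).pow (2 * l + 1)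
  have h4 := h2.div h3 (pow_ne_zero _ hne)
  refine h4.congr_deriv ?_
  unfold qq
  rw [PP]
  simp only [ev_sub, ev_mul, ev_C, Polynomial.eval_C, Nat.add_sub_cancel, Pi.pow_apply]
  generalize ev (Polynomial.derivative B) u (f u) = b at *
  generalize ev (TT B (PP B l)) u (f u) = c at *
  generalize ev (TT B (Polynomial.derivative B)) u (f u) = d at *
  generalize ev (PP B l) u (f u) = p at *
  rw [div_eq_div_iff (pow_ne_zero _ (pow_ne_zero _ hne)) (pow_ne_zero _ hne)]
  have e1 : b ^ (2 * l + 1) = b ^ (2 * l) * b := pow_succ _ _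
  have e2 : b ^ (2 * (l + 1) + 1) = b ^ (2 * l) * b ^ 3 := by
    rw [show 2 * (l + 1) + 1 = 2 * l + 3 by ring, pow_add]
  have e3 : c / b * b = c := by field_simp
  have e4 : d / b * b = d := by field_simp
  have e5 : ((2 * l + 1 : ℕ) : ℂ) * b ^ (2 * l) * (d / b) * (b ^ (2 * l) * b ^ 3) =
      ((2 * l + 1 : ℕ) : ℂ) * b ^ (2 * l) * (b ^ (2 * l) * b ^ 2) * (d / b * b) := by ring
  have e6 : c / b * (b ^ (2 * l) * b) * (b ^ (2 * l) * b ^ 3) =
      (c / b * b) * (b ^ (2 * l) * (b ^ (2 * l) * b ^ 3)) := by ring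
  rw [e1, e2]
  calc (c / b * (b ^ (2 * l) * b) - p * (((2 * l + 1 : ℕ) : ℂ) * b ^ (2 * l) * (d / b))) *
        (b ^ (2 * l) * b ^ 3)
      = c / b * (b ^ (2 * l) * b) * (b ^ (2 * l) * b ^ 3) -
        p * (((2 * l + 1 : ℕ) : ℂ) * b ^ (2 * l) * (d / b) * (b ^ (2 * l) * b ^ 3)) := by ring
    _ = _ := by
      rw [e5, e6, e3, e4]
      ring

lemma iter (hI : IsOpen I) (hf : ContinuousOn f I) (h0 : ∀ u ∈ I, ev B u (f u) = 0)
    (h1 : ∀ u ∈ I, ev (Polynomial.derivative B) u (f u) ≠ 0) (l : ℕ) :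
    ∀ u ∈ I, ((iteratedDeriv (l + 1) f u : ℝ) : ℂ) = qq B f l u := by
  induction l with
  | zero =>
    intro u hu
    have h := (real_deriv (der1 hI hf h0 h1 hu)).2
    rw [zero_add, iteratedDeriv_one, ← h]
    unfold qq
    rw [PP, ev_neg, mul_zero, zero_add, pow_one]
  | succ l ih =>
    intro u hu
    have h2 := der3 hI hf h0 h1 l hu
    have h3 : HasDerivAt (fun u => ((iteratedDeriv (l + 1) f u : ℝ) : ℂ)) (qq B f (l + 1) u) u := by
      refine h2.congr_of_eventuallyEq ?_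
      filter_upwards [hI.mem_nhds hu] with x hx
      exact ih x hx
    rw [iteratedDeriv_succ]
    exact (real_deriv h3).2.symm

lemma cont_ev (hf : ContinuousOn f I) (P : ℂ[X][X]) :
    ContinuousOn (fun u => ev P u (f u)) I := by
  have h := (contDiff_ev P 0).continuous
  exact h.comp_continuousOn (continuousOn_id.prodMk (Complex.continuous_ofReal.comp_continuousOn hf))

lemma smooth (hI : IsOpen I) (hf : ContinuousOn f I) (h0 : ∀ u ∈ I, ev B u (f u) = 0)
    (h1 : ∀ u ∈ I, ev (Polynomial.derivative B) u (f u) ≠ 0) (n : ℕ) :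
    ContDiffOn ℝ n f I := by
  induction n with
  | zero =>
    rw [Nat.cast_zero, contDiffOn_zero]
    exact hf
  | succ n ih =>
    have hn : (((n + 1 : ℕ) : ℕ∞) : WithTop ℕ∞) = ((n : ℕ∞) : WithTop ℕ∞) + 1 := by
      push_cast
      rfl
    have h2 : ContDiffOn ℝ (((n : ℕ∞) : WithTop ℕ∞) + 1) f I := by
      rw [contDiffOn_succ_iff_deriv_of_isOpen hI]
      refine ⟨?_, ?_, ?_⟩
      · intro u hu
        exact (real_deriv (der1 hI hf h0 h1 hu)).1.differentiableAt.differentiableWithinAt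
      · intro h
        exact absurd h (by simp)
      · have h3 : ∀ P : ℂ[X][X], ContDiffOn ℝ n (fun u => ev P u (f u)) I := by
          intro P
          have h4 := (contDiff_ev P n)
          have h5 : ContDiffOn ℝ n (fun u => ((u, (f u : ℂ)) : ℝ × ℂ)) I :=
            contDiffOn_id.prodMk (Complex.ofRealCLM.contDiff.comp_contDiffOn ih)
          exact h4.comp_contDiffOn h5
        have h6 : ContDiffOn ℝ n (fun u =>
            (-ev (th B) u (f u) * (ev (Polynomial.derivative B) u (f u))⁻¹).re) I :=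
          Complex.reCLM.contDiff.comp_contDiffOn
            ((h3 (th B)).neg.mul ((h3 (Polynomial.derivative B)).inv h1))
        refine h6.congr ?_
        intro u hu
        rw [(real_deriv (der1 hI hf h0 h1 hu)).1.deriv, div_eq_mul_inv]
    exact h2

lemma const_sign {g : ℝ → ℝ} (hc : I.OrdConnected) (hg : ContinuousOn g I)
    (h : (∀ u ∈ I, g u = 0) ∨ (∀ u ∈ I, g u ≠ 0)) :
    (∀ u ∈ I, g u = 0) ∨ (∀ u ∈ I, 0 < g u) ∨ (∀ u ∈ I, g u < 0) := by
  rcases h with h | h
  · exact Or.inl h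
  · right
    by_contra hcon
    push Not at hcon
    obtain ⟨⟨a, ha, ha'⟩, ⟨b, hb, hb'⟩⟩ := hcon
    have h1 := (hc.isPreconnected.intermediate_value ha hb hg) ⟨ha', hb'⟩
    obtain ⟨c, hcI, hc0⟩ := h1
    exact h c hcI hc0

end

end

end Pool.Agent.Q154.UM
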